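import Mathlib
import Pool.Agent.N848.LT.Stm

/-!
# Project LT, leaf UN: norms of unramified elements
-/

set_option autoImplicit false

namespace Pool.Agent.N850.LT

open NumberField IsDedekindDomain Module Pool.Agent.N848.LT

theorem t_UN (h1 : Pool.Agent.N848.LT.S_APX) (h2 : Pool.Agent.N848.LT.S_INT) :
    Pool.Agent.N848.LT.S_UN := by
  intro F K _ _ _ _ _ u x hx hx0
  obtain ⟨y₀, hy₀⟩ := h1 F K u x hx
  obtain ⟨y, hy0, hy⟩ : ∃ y : K, y ≠ 0 ∧ ∀ v : HeightOneSpectrum (𝓞 K), Ab v u →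
      v.valuation K (x * y ^ 2) = 1 ∧ v.valuation K (x * y ^ 2 - 1) ≤ v.valuation K 4 := by
    by_cases hc : y₀ = 0
    · refine ⟨1, one_ne_zero, fun v hv => ?_⟩
      have h3 := (hy₀ v hv).1
      rw [hc] at h3
      simp at h3
    · exact ⟨y₀, hc, hy₀⟩
  set z : K := x * y ^ 2 with hz
  have hz0 : z ≠ 0 := mul_ne_zero hx0 (pow_ne_zero _ hy0)
  have h40 : (4 : K) ≠ 0 := by norm_num
  have hn : Algebra.norm F x * Algebra.norm F y ^ 2 = Algebra.norm F z := by
    rw [hz, map_mul, map_pow]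
  have h4 : u.valuation F (4 : F) ≤ 1 := by
    have h5 : u.valuation F (algebraMap (𝓞 F) F 4) ≤ 1 := u.valuation_le_one (K := F) (4 : 𝓞 F)
    have h6 : algebraMap (𝓞 F) F 4 = 4 := map_ofNat _ 4
    rwa [h6] at h5
  have ht : ∀ v : HeightOneSpectrum (𝓞 K), Ab v u → v.valuation K ((z - 1) / 4) ≤ 1 := by
    intro v hv
    have h5 := (hy v hv).2
    rw [map_div₀]
    have h6 : v.valuation K (4 : K) ≠ 0 := (Valuation.ne_zero_iff _).mpr h40
    exact (div_le_one₀ (zero_lt_iff.mpr h6)).mpr h5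
  obtain ⟨-, -, hr⟩ := h2 F K u ((z - 1) / 4) ht
  obtain ⟨r, hr1, hr2⟩ := hr 4 h4
  have hr3 : Algebra.norm F z = 1 + 4 * r := by
    rw [← hr2]
    congr 1
    rw [map_ofNat]
    field_simp
    ring
  have hz1 : u.valuation F (Algebra.norm F z) ≤ 1 :=
    (h2 F K u z fun v hv => (hy v hv).1.le).1
  have hz2 : u.valuation F (Algebra.norm F z⁻¹) ≤ 1 :=
    (h2 F K u z⁻¹ fun v hv => by rw [map_inv₀, (hy v hv).1, inv_one]).1
  have hN0 : Algebra.norm F z ≠ 0 := (Algebra.norm_ne_zero_iff).mpr hz0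
  refine ⟨Algebra.norm F y, ?_, ?_⟩
  · rw [hn]
    apply le_antisymm hz1
    have h5 : Algebra.norm F z * Algebra.norm F z⁻¹ = 1 := by
      rw [← map_mul, mul_inv_cancel₀ hz0, map_one]
    calc (1 : WithZero (Multiplicative ℤ)) = u.valuation F (Algebra.norm F z * Algebra.norm F z⁻¹) := by
          rw [h5, map_one]
      _ = u.valuation F (Algebra.norm F z) * u.valuation F (Algebra.norm F z⁻¹) := map_mul _ _ _
      _ ≤ u.valuation F (Algebra.norm F z) * 1 := mul_le_mul_right hz2 _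
      _ = _ := mul_one _
  · rw [hn, hr3, add_sub_cancel_left, map_mul]
    calc u.valuation F (4 : F) * u.valuation F r ≤ u.valuation F (4 : F) * 1 := mul_le_mul_right hr1 _
      _ = _ := mul_one _


end Pool.Agent.N850.LT
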